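import Mathlib
import Pool.Agent.ML.R10

set_option autoImplicit false
set_option linter.unusedSectionVars false
set_option linter.unusedFintypeInType false
set_option linter.unusedVariables false

namespace Pool.Agent.Results.MP_3c540c_co.EvenAsymptotic

/-- A multigraph with vertex type `V` and edge type `E`: each edge has an unordered pair of ends.
Parallel edges (and also loops) are allowed. -/
structure MGraph (V E : Type) where
  /-- the ends of an edge -/
  ends : E → Sym2 V

section Defs

variable {V E : Type} [Fintype V] [Fintype E] [DecidableEq V] [DecidableEq E]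

/-- Number of times the edge `e` is attached to the vertex `v` (a loop counts twice). -/
def MGraph.mult (G : MGraph V E) (e : E) (v : V) : ℕ :=
  if G.ends e = s(v, v) then 2 else if v ∈ G.ends e then 1 else 0

/-- Degree of `v` in the subgraph formed by the edge set `C`. -/
def MGraph.deg (G : MGraph V E) (C : Finset E) (v : V) : ℕ := ∑ e ∈ C, G.mult e v

/-- `C` is the edge set of a circuit: nonempty, every vertex has degree 0 or 2 in `C`, and any
two edges of `C` are joined by a chain of edges of `C` in which consecutive edges share a vertex. -/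
def MGraph.IsCircuit (G : MGraph V E) (C : Finset E) : Prop :=
  C.Nonempty ∧ (∀ v, G.deg C v = 0 ∨ G.deg C v = 2) ∧
    ∀ e ∈ C, ∀ f ∈ C,
      Relation.ReflTransGen (fun a b => a ∈ C ∧ b ∈ C ∧ ∃ v, v ∈ G.ends a ∧ v ∈ G.ends b) e f

/-- The edge-cut `δ(X)`: the edges with exactly one end in `X`. -/
def MGraph.cut (G : MGraph V E) (X : Finset V) : Finset E :=
  Finset.univ.filter (fun e => (∃ v, v ∈ G.ends e ∧ v ∈ X) ∧ (∃ v, v ∈ G.ends e ∧ v ∉ X))

/-- Admissible weights. -/
def MGraph.Admissible (G : MGraph V E) (w : E → ℕ) : Prop :=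
  ∀ X : Finset V, X.Nonempty → X ≠ Finset.univ →
    ∀ e ∈ G.cut X, w e ≤ ∑ f ∈ (G.cut X).erase e, w f

/-- Eulerian weights. -/
def MGraph.Eulerian (G : MGraph V E) (w : E → ℕ) : Prop :=
  ∀ X : Finset V, X.Nonempty → X ≠ Finset.univ → Even (∑ f ∈ G.cut X, w f)

/-- `(G, w)` has a faithful circuit cover. -/
def MGraph.HasFaithfulCover (G : MGraph V E) (w : E → ℕ) : Prop :=
  ∃ F : Multiset (Finset E), (∀ C ∈ F, G.IsCircuit C) ∧ ∀ e, F.countP (fun C => e ∈ C) = w e

/-- Property `P_k`. -/
def MGraph.PropP (G : MGraph V E) (k : ℕ) : Prop :=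
  ∀ w : E → ℕ, (∀ e, k ∣ w e) → G.Admissible w → G.Eulerian w → G.HasFaithfulCover w

end Defs

/-- For every `n` all finite multigraphs on at most `n` vertices have property `P_k` for all
sufficiently large even `k`. -/
theorem result (n : ℕ) : ∃ K : ℕ, ∀ k : ℕ, K ≤ k → Even k →
    ∀ (V E : Type) [Fintype V] [Fintype E] [DecidableEq V] [DecidableEq E],
      Fintype.card V ≤ n → ∀ G : MGraph V E, G.PropP k := by
  obtain ⟨K, hK⟩ := ML.R.all_graphs n
  exact ⟨K, fun k hk h2 V E _ _ _ _ hV G => hK k hk h2 V E hV ⟨G.ends⟩⟩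

end Pool.Agent.Results.MP_3c540c_co.EvenAsymptotic
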