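import Mathlib
import Pool.Agent.FCCov.E

set_option autoImplicit false
set_option linter.unusedSectionVars false
set_option linter.unusedFintypeInType false
set_option linter.unusedVariables false

namespace Pool.Agent.Results.MP_3c540c_co.HeavyCuts

/-- A multigraph with vertex type `V` and edge type `E`: each edge has an unordered pair of ends.
Parallel edges (and also loops) are allowed. -/
structure MGraph (V E : Type) where
  /-- the ends of an edge -/
  ends : E → Sym2 V

section Defs

variable {V E : Type} [Fintype V] [Fintype E] [DecidableEq V] [DecidableEq E]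

/-- Number of times the edge `e` is attached to the vertex `v` (a loop counts twice). -/
def MGraph.mult (G : MGraph V E) (e : E) (v : V) : ℕ :=
  if G.ends e = s(v, v) then 2 else if v ∈ G.ends e then 1 else 0

/-- Degree of `v` in the subgraph formed by the edge set `C`. -/
def MGraph.deg (G : MGraph V E) (C : Finset E) (v : V) : ℕ := ∑ e ∈ C, G.mult e v

/-- `C` is the edge set of a circuit: nonempty, every vertex has degree 0 or 2 in `C`, and any
two edges of `C` are joined by a chain of edges of `C` in which consecutive edges share a vertex. -/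
def MGraph.IsCircuit (G : MGraph V E) (C : Finset E) : Prop :=
  C.Nonempty ∧ (∀ v, G.deg C v = 0 ∨ G.deg C v = 2) ∧
    ∀ e ∈ C, ∀ f ∈ C,
      Relation.ReflTransGen (fun a b => a ∈ C ∧ b ∈ C ∧ ∃ v, v ∈ G.ends a ∧ v ∈ G.ends b) e f

/-- The edge-cut `δ(X)`: the edges with exactly one end in `X`. -/
def MGraph.cut (G : MGraph V E) (X : Finset V) : Finset E :=
  Finset.univ.filter (fun e => (∃ v, v ∈ G.ends e ∧ v ∈ X) ∧ (∃ v, v ∈ G.ends e ∧ v ∉ X))

/-- Eulerian weights. -/
def MGraph.Eulerian (G : MGraph V E) (w : E → ℕ) : Prop :=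
  ∀ X : Finset V, X.Nonempty → X ≠ Finset.univ → Even (∑ f ∈ G.cut X, w f)

/-- `(G, w)` has a faithful circuit cover. -/
def MGraph.HasFaithfulCover (G : MGraph V E) (w : E → ℕ) : Prop :=
  ∃ F : Multiset (Finset E), (∀ C ∈ F, G.IsCircuit C) ∧ ∀ e, F.countP (fun C => e ∈ C) = w e

end Defs

/-- Let `N` be odd and `w ≤ N` an eulerian weight. If every cut which contains an edge of weight at
least two has capacity at least `2 (N - 1)` with respect to `min (w e) (N - w e)`, then `(G, w)` has
a faithful circuit cover. -/
theorem result (V E : Type) [Fintype V] [Fintype E] [DecidableEq V] [DecidableEq E]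
    (G : MGraph V E) (w : E → ℕ) (N : ℕ) (hN : Odd N) (hE : G.Eulerian w) (hw : ∀ e, w e ≤ N)
    (hc : ∀ X : Finset V, (∃ e ∈ G.cut X, 2 ≤ w e) →
      2 * (N - 1) ≤ ∑ e ∈ G.cut X, min (w e) (N - w e)) : G.HasFaithfulCover w :=
  Pool.Agent.FCCov.heavy_cuts ⟨G.ends⟩ w N hN hE hw hc

end Pool.Agent.Results.MP_3c540c_co.HeavyCuts
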