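import Mathlib

set_option autoImplicit false
set_option linter.unusedSectionVars false
set_option linter.unusedFintypeInType false

namespace Pool.Agent.Results.MP_3c540c_co.OddPetersen

/-- A multigraph with vertex type `V` and edge type `E`: each edge has an unordered pair of ends.
Parallel edges (and also loops) are allowed. -/
structure MGraph (V E : Type) where
  /-- the ends of an edge -/
  ends : E → Sym2 V

section Defs

variable {V E : Type} [Fintype V] [Fintype E] [DecidableEq V] [DecidableEq E]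

/-- Number of times the edge `e` is attached to the vertex `v` (a loop counts twice). -/
def MGraph.mult (G : MGraph V E) (e : E) (v : V) : ℕ :=
  if G.ends e = s(v, v) then 2 else if v ∈ G.ends e then 1 else 0

/-- Degree of `v` in the subgraph formed by the edge set `C`. -/
def MGraph.deg (G : MGraph V E) (C : Finset E) (v : V) : ℕ := ∑ e ∈ C, G.mult e v

/-- `C` is the edge set of a circuit: nonempty, every vertex has degree 0 or 2 in `C`, and any
two edges of `C` are joined by a chain of edges of `C` in which consecutive edges share a vertex. -/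
def MGraph.IsCircuit (G : MGraph V E) (C : Finset E) : Prop :=
  C.Nonempty ∧ (∀ v, G.deg C v = 0 ∨ G.deg C v = 2) ∧
    ∀ e ∈ C, ∀ f ∈ C,
      Relation.ReflTransGen (fun a b => a ∈ C ∧ b ∈ C ∧ ∃ v, v ∈ G.ends a ∧ v ∈ G.ends b) e f

/-- The edge-cut `δ(X)`: the edges with exactly one end in `X`. -/
def MGraph.cut (G : MGraph V E) (X : Finset V) : Finset E :=
  Finset.univ.filter (fun e => (∃ v, v ∈ G.ends e ∧ v ∈ X) ∧ (∃ v, v ∈ G.ends e ∧ v ∉ X))

/-- Admissible weights. -/
def MGraph.Admissible (G : MGraph V E) (w : E → ℕ) : Prop :=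
  ∀ X : Finset V, X.Nonempty → X ≠ Finset.univ →
    ∀ e ∈ G.cut X, w e ≤ ∑ f ∈ (G.cut X).erase e, w f

/-- Eulerian weights. -/
def MGraph.Eulerian (G : MGraph V E) (w : E → ℕ) : Prop :=
  ∀ X : Finset V, X.Nonempty → X ≠ Finset.univ → Even (∑ f ∈ G.cut X, w f)

/-- `(G, w)` has a faithful circuit cover. -/
def MGraph.HasFaithfulCover (G : MGraph V E) (w : E → ℕ) : Prop :=
  ∃ F : Multiset (Finset E), (∀ C ∈ F, G.IsCircuit C) ∧ ∀ e, F.countP (fun C => e ∈ C) = w e

/-- Property `P_k`. -/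
def MGraph.PropP (G : MGraph V E) (k : ℕ) : Prop :=
  ∀ w : E → ℕ, (∀ e, k ∣ w e) → G.Admissible w → G.Eulerian w → G.HasFaithfulCover w

end Defs

/-- Vertices of the Petersen graph: `(false, i)` outer, `(true, i)` inner. -/
abbrev PV := Bool × Fin 5

/-- Edges of the Petersen graph: `(0, i)` outer, `(1, i)` spoke, `(2, i)` inner. -/
abbrev PE := Fin 3 × Fin 5

/-- First end of an edge of the Petersen graph. -/
def src : PE → PV
  | (0, i) => (false, i)
  | (1, i) => (false, i)
  | (2, i) => (true, i)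

/-- Second end of an edge of the Petersen graph (addition in `Fin 5` is modulo 5). -/
def tgt : PE → PV
  | (0, i) => (false, i + 1)
  | (1, i) => (true, i)
  | (2, i) => (true, i + 2)

/-- A subdivision of the Petersen graph contained in `G`: injective branch vertices `b`, and for
every edge `f` of the Petersen graph a path in `G` of length `n f ≥ 1` with vertices
`x f 0, …, x f (n f)` and edges `y f 0, …, y f (n f - 1)` from `b (src f)` to `b (tgt f)`, such
that all inner vertices of all these paths are distinct and are not branch vertices. -/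
structure PetersenSubdivision {V E : Type} (G : MGraph V E) where
  b : PV → V
  b_inj : Function.Injective b
  n : PE → ℕ
  n_pos : ∀ f, 1 ≤ n f
  x : PE → ℕ → V
  y : PE → ℕ → E
  x_zero : ∀ f, x f 0 = b (src f)
  x_last : ∀ f, x f (n f) = b (tgt f)
  link : ∀ f i, i < n f → G.ends (y f i) = s(x f i, x f (i + 1))
  inner_inj : ∀ f f' i j, 0 < i → i < n f → 0 < j → j < n f' → x f i = x f' j → f = f' ∧ i = j
  inner_branch : ∀ f i v, 0 < i → i < n f → x f i ≠ b v

/-! ### Facts about the Petersen graph -/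

/-- The critical weight: 2 on the spokes, 1 elsewhere. -/
def w10 : PE → ℕ
  | (0, _) => 1
  | (1, _) => 2
  | (2, _) => 1

lemma src_ne_tgt : ∀ f, src f ≠ tgt f := by decide

lemma simple_pet : ∀ f g, s(src f, tgt f) = s(src g, tgt g) → f = g := by decide

lemma final_parity (o s n : Fin 5 → ℕ) (ho : ∀ i, o i ≤ 1) (hs : ∀ i, s i ≤ 1) (hn : ∀ i, n i ≤ 1)
    (h1 : ∀ i, s (i + 1) = o i + o (i + 1)) (h2 : ∀ i, s (i + 2) = n i + n (i + 2)) :
    Even (∑ i, o i) := by
  rw [Fin.sum_univ_five]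
  have a0 := h1 0; have a1 := h1 1; have a2 := h1 2; have a3 := h1 3; have a4 := h1 4
  have b0 := h2 0; have b1 := h2 1; have b2 := h2 2; have b3 := h2 3; have b4 := h2 4
  have c0 := hs 0; have c1 := hs 1; have c2 := hs 2; have c3 := hs 3; have c4 := hs 4
  have d0 := ho 0; have d1 := ho 1; have d2 := ho 2; have d3 := ho 3; have d4 := ho 4
  have e0 := hn 0; have e1 := hn 1; have e2 := hn 2; have e3 := hn 3; have e4 := hn 4
  simp only [zero_add, show (1:Fin 5) + 1 = 2 from rfl, show (2:Fin 5) + 1 = 3 from rfl,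
    show (3:Fin 5) + 1 = 4 from rfl, show (4:Fin 5) + 1 = 0 from rfl,
    show (1:Fin 5) + 2 = 3 from rfl, show (2:Fin 5) + 2 = 4 from rfl,
    show (3:Fin 5) + 2 = 0 from rfl, show (4:Fin 5) + 2 = 1 from rfl] at *
  rw [Nat.even_iff]
  generalize o 0 = o0 at *
  generalize o 1 = o1 at *
  generalize o 2 = o2 at *
  generalize o 3 = o3 at *
  generalize o 4 = o4 at *
  generalize n 0 = n0 at *
  generalize n 1 = n1 at *
  generalize n 2 = n2 at *
  generalize n 3 = n3 at *
  generalize n 4 = n4 at *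
  generalize s 0 = s0 at *
  generalize s 1 = s1 at *
  generalize s 2 = s2 at *
  generalize s 3 = s3 at *
  generalize s 4 = s4 at *
  clear ho hs hn h1 h2
  interval_cases o0 <;> interval_cases o1 <;> interval_cases o2 <;> interval_cases o3 <;>
    interval_cases o4 <;> omega

lemma sum_PE (g : PE → ℕ) : ∑ f, g f =
    (g (0,0) + g (0,1) + g (0,2) + g (0,3) + g (0,4)) +
    (g (1,0) + g (1,1) + g (1,2) + g (1,3) + g (1,4)) +
    (g (2,0) + g (2,1) + g (2,2) + g (2,3) + g (2,4)) := by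
  rw [Fintype.sum_prod_type, Fin.sum_univ_three]
  simp only [Fin.sum_univ_five]

lemma par8 {a1 a2 a3 a4 a5 a6 a7 a8 z1 z2 z3 z4 z5 z6 z7 z8 : ℕ}
    (h1 : a1 % 2 = (z1 + z2) % 2) (h2 : a2 % 2 = (z2 + z3) % 2) (h3 : a3 % 2 = (z3 + z4) % 2)
    (h4 : a4 % 2 = (z4 + z5) % 2) (h5 : a5 % 2 = (z5 + z6) % 2) (h6 : a6 % 2 = (z6 + z7) % 2)
    (h7 : a7 % 2 = (z7 + z8) % 2) (h8 : a8 % 2 = (z8 + z1) % 2) :
    ∃ m, a1 + a2 + a3 + a4 + a5 + a6 + a7 + a8 = 2 * m := by
  have : (a1 + a2 + a3 + a4 + a5 + a6 + a7 + a8) % 2 = 0 := by omega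
  exact ⟨(a1 + a2 + a3 + a4 + a5 + a6 + a7 + a8) / 2, by omega⟩

lemma par5 {a1 a2 a3 a4 a5 z1 z2 z3 z4 z5 : ℕ}
    (h1 : a1 % 2 = (z1 + z2) % 2) (h2 : a2 % 2 = (z2 + z3) % 2) (h3 : a3 % 2 = (z3 + z4) % 2)
    (h4 : a4 % 2 = (z4 + z5) % 2) (h5 : a5 % 2 = (z5 + z1) % 2) :
    ∃ m, a1 + a2 + a3 + a4 + a5 = 2 * m := by
  have : (a1 + a2 + a3 + a4 + a5) % 2 = 0 := by omega
  exact ⟨(a1 + a2 + a3 + a4 + a5) / 2, by omega⟩

/-- Cut counts in the Petersen graph. -/
lemma cut_count (a : PE → ℕ) (z : PV → ℕ)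
    (ha : ∀ f, a f % 2 = (z (src f) + z (tgt f)) % 2) :
    Even (∑ f, w10 f * a f) ∧ ∀ f, 1 ≤ a f → 2 * w10 f ≤ ∑ g, w10 g * a g := by
  have hb : ∀ f, a f % 2 = (z (tgt f) + z (src f)) % 2 := fun f => by rw [ha f, add_comm]
  -- the circuit missing index `j`: o(j+1), s(j+2), i(j+2) to j+4, s(j+4), o(j+3), s(j+3),
  -- i(j+1), s(j+1)
  have hc : ∀ j : Fin 5, ∃ m, a (0, j + 1) + a (1, j + 2) + a (2, j + 2) + a (1, j + 4) +
      a (0, j + 3) + a (1, j + 3) + a (2, j + 1) + a (1, j + 1) = 2 * m := by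
    intro j
    apply par8 (z1 := z (false, j + 1)) (z2 := z (false, j + 2)) (z3 := z (true, j + 2))
      (z4 := z (true, j + 4)) (z5 := z (false, j + 4)) (z6 := z (false, j + 3))
      (z7 := z (true, j + 3)) (z8 := z (true, j + 1))
    · have := ha (0, j + 1); simpa only [src, tgt, add_assoc, show (1:Fin 5) + 1 = 2 from rfl] using this
    · exact ha (1, j + 2)
    · have := ha (2, j + 2); simpa only [src, tgt, add_assoc, show (2:Fin 5) + 2 = 4 from rfl] using this
    · exact hb (1, j + 4)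
    · have := hb (0, j + 3); simpa only [src, tgt, add_assoc, show (3:Fin 5) + 1 = 4 from rfl] using this
    · exact ha (1, j + 3)
    · have := hb (2, j + 1); simpa only [src, tgt, add_assoc, show (1:Fin 5) + 2 = 3 from rfl] using this
    · exact hb (1, j + 1)
  obtain ⟨m0, c0⟩ := hc 0
  obtain ⟨m1, c1⟩ := hc 1
  obtain ⟨m2, c2⟩ := hc 2
  obtain ⟨m3, c3⟩ := hc 3
  obtain ⟨m4, c4⟩ := hc 4
  obtain ⟨p, hp⟩ : ∃ m, a (0, 0) + a (0, 1) + a (0, 2) + a (0, 3) + a (0, 4) = 2 * m :=
    par5 (ha (0,0)) (ha (0,1)) (ha (0,2)) (ha (0,3)) (ha (0,4))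
  obtain ⟨q, hq⟩ : ∃ m, a (2, 0) + a (2, 2) + a (2, 4) + a (2, 1) + a (2, 3) = 2 * m :=
    par5 (ha (2,0)) (ha (2,2)) (ha (2,4)) (ha (2,1)) (ha (2,3))
  simp only [zero_add, show (1:Fin 5) + 1 = 2 from rfl, show (2:Fin 5) + 1 = 3 from rfl,
    show (3:Fin 5) + 1 = 4 from rfl, show (4:Fin 5) + 1 = 0 from rfl,
    show (1:Fin 5) + 2 = 3 from rfl, show (2:Fin 5) + 2 = 4 from rfl,
    show (3:Fin 5) + 2 = 0 from rfl, show (4:Fin 5) + 2 = 1 from rfl,
    show (1:Fin 5) + 3 = 4 from rfl, show (2:Fin 5) + 3 = 0 from rfl,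
    show (3:Fin 5) + 3 = 1 from rfl, show (4:Fin 5) + 3 = 2 from rfl,
    show (1:Fin 5) + 4 = 0 from rfl, show (2:Fin 5) + 4 = 1 from rfl,
    show (3:Fin 5) + 4 = 2 from rfl, show (4:Fin 5) + 4 = 3 from rfl] at c0 c1 c2 c3 c4
  rw [sum_PE]
  simp only [w10]
  clear ha hb hc
  constructor
  · rw [Nat.even_iff]
    clear c0 c1 c2 c3 c4
    omega
  · clear hp hq
    have htot : 1 * a (0,0) + 1 * a (0,1) + 1 * a (0,2) + 1 * a (0,3) + 1 * a (0,4) +
        (2 * a (1,0) + 2 * a (1,1) + 2 * a (1,2) + 2 * a (1,3) + 2 * a (1,4)) +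
        (1 * a (2,0) + 1 * a (2,1) + 1 * a (2,2) + 1 * a (2,3) + 1 * a (2,4)) =
        m0 + m1 + m2 + m3 + m4 := by omega
    rw [htot]
    clear htot
    have k0 : ∀ j, m0 = 0 → j ∈ [a (0,1), a (1,2), a (2,2), a (1,4), a (0,3), a (1,3), a (2,1), a (1,1)] → j = 0 := by
      intro j h0 hj; simp only [List.mem_cons, List.not_mem_nil, or_false] at hj; omega
    have k1 : ∀ j, m1 = 0 → j ∈ [a (0,2), a (1,3), a (2,3), a (1,0), a (0,4), a (1,4), a (2,2), a (1,2)] → j = 0 := by
      intro j h0 hj; simp only [List.mem_cons, List.not_mem_nil, or_false] at hj; omega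
    have k2 : ∀ j, m2 = 0 → j ∈ [a (0,3), a (1,4), a (2,4), a (1,1), a (0,0), a (1,0), a (2,3), a (1,3)] → j = 0 := by
      intro j h0 hj; simp only [List.mem_cons, List.not_mem_nil, or_false] at hj; omega
    have k3 : ∀ j, m3 = 0 → j ∈ [a (0,4), a (1,0), a (2,0), a (1,2), a (0,1), a (1,1), a (2,4), a (1,4)] → j = 0 := by
      intro j h0 hj; simp only [List.mem_cons, List.not_mem_nil, or_false] at hj; omega
    have k4 : ∀ j, m4 = 0 → j ∈ [a (0,0), a (1,1), a (2,1), a (1,3), a (0,2), a (1,2), a (2,0), a (1,0)] → j = 0 := by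
      intro j h0 hj; simp only [List.mem_cons, List.not_mem_nil, or_false] at hj; omega
    clear c0 c1 c2 c3 c4
    have q00 : 1 ≤ a (0,0) → 2 ≤ m0 + m1 + m2 + m3 + m4 := by
      intro h
      have n2 : m2 ≠ 0 := fun h0 => by
        have := k2 (a (0,0)) h0 (by simp); omega
      have n4 : m4 ≠ 0 := fun h0 => by
        have := k4 (a (0,0)) h0 (by simp); omega
      omega
    have q01 : 1 ≤ a (0,1) → 2 ≤ m0 + m1 + m2 + m3 + m4 := by
      intro h
      have n0 : m0 ≠ 0 := fun h0 => by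
        have := k0 (a (0,1)) h0 (by simp); omega
      have n3 : m3 ≠ 0 := fun h0 => by
        have := k3 (a (0,1)) h0 (by simp); omega
      omega
    have q02 : 1 ≤ a (0,2) → 2 ≤ m0 + m1 + m2 + m3 + m4 := by
      intro h
      have n1 : m1 ≠ 0 := fun h0 => by
        have := k1 (a (0,2)) h0 (by simp); omega
      have n4 : m4 ≠ 0 := fun h0 => by
        have := k4 (a (0,2)) h0 (by simp); omega
      omega
    have q03 : 1 ≤ a (0,3) → 2 ≤ m0 + m1 + m2 + m3 + m4 := by
      intro h
      have n0 : m0 ≠ 0 := fun h0 => by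
        have := k0 (a (0,3)) h0 (by simp); omega
      have n2 : m2 ≠ 0 := fun h0 => by
        have := k2 (a (0,3)) h0 (by simp); omega
      omega
    have q04 : 1 ≤ a (0,4) → 2 ≤ m0 + m1 + m2 + m3 + m4 := by
      intro h
      have n1 : m1 ≠ 0 := fun h0 => by
        have := k1 (a (0,4)) h0 (by simp); omega
      have n3 : m3 ≠ 0 := fun h0 => by
        have := k3 (a (0,4)) h0 (by simp); omega
      omega
    have q10 : 1 ≤ a (1,0) → 4 ≤ m0 + m1 + m2 + m3 + m4 := by
      intro h
      have n1 : m1 ≠ 0 := fun h0 => by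
        have := k1 (a (1,0)) h0 (by simp); omega
      have n2 : m2 ≠ 0 := fun h0 => by
        have := k2 (a (1,0)) h0 (by simp); omega
      have n3 : m3 ≠ 0 := fun h0 => by
        have := k3 (a (1,0)) h0 (by simp); omega
      have n4 : m4 ≠ 0 := fun h0 => by
        have := k4 (a (1,0)) h0 (by simp); omega
      omega
    have q11 : 1 ≤ a (1,1) → 4 ≤ m0 + m1 + m2 + m3 + m4 := by
      intro h
      have n0 : m0 ≠ 0 := fun h0 => by
        have := k0 (a (1,1)) h0 (by simp); omega
      have n2 : m2 ≠ 0 := fun h0 => by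
        have := k2 (a (1,1)) h0 (by simp); omega
      have n3 : m3 ≠ 0 := fun h0 => by
        have := k3 (a (1,1)) h0 (by simp); omega
      have n4 : m4 ≠ 0 := fun h0 => by
        have := k4 (a (1,1)) h0 (by simp); omega
      omega
    have q12 : 1 ≤ a (1,2) → 4 ≤ m0 + m1 + m2 + m3 + m4 := by
      intro h
      have n0 : m0 ≠ 0 := fun h0 => by
        have := k0 (a (1,2)) h0 (by simp); omega
      have n1 : m1 ≠ 0 := fun h0 => by
        have := k1 (a (1,2)) h0 (by simp); omega
      have n3 : m3 ≠ 0 := fun h0 => by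
        have := k3 (a (1,2)) h0 (by simp); omega
      have n4 : m4 ≠ 0 := fun h0 => by
        have := k4 (a (1,2)) h0 (by simp); omega
      omega
    have q13 : 1 ≤ a (1,3) → 4 ≤ m0 + m1 + m2 + m3 + m4 := by
      intro h
      have n0 : m0 ≠ 0 := fun h0 => by
        have := k0 (a (1,3)) h0 (by simp); omega
      have n1 : m1 ≠ 0 := fun h0 => by
        have := k1 (a (1,3)) h0 (by simp); omega
      have n2 : m2 ≠ 0 := fun h0 => by
        have := k2 (a (1,3)) h0 (by simp); omega
      have n4 : m4 ≠ 0 := fun h0 => by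
        have := k4 (a (1,3)) h0 (by simp); omega
      omega
    have q14 : 1 ≤ a (1,4) → 4 ≤ m0 + m1 + m2 + m3 + m4 := by
      intro h
      have n0 : m0 ≠ 0 := fun h0 => by
        have := k0 (a (1,4)) h0 (by simp); omega
      have n1 : m1 ≠ 0 := fun h0 => by
        have := k1 (a (1,4)) h0 (by simp); omega
      have n2 : m2 ≠ 0 := fun h0 => by
        have := k2 (a (1,4)) h0 (by simp); omega
      have n3 : m3 ≠ 0 := fun h0 => by
        have := k3 (a (1,4)) h0 (by simp); omega
      omega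
    have q20 : 1 ≤ a (2,0) → 2 ≤ m0 + m1 + m2 + m3 + m4 := by
      intro h
      have n3 : m3 ≠ 0 := fun h0 => by
        have := k3 (a (2,0)) h0 (by simp); omega
      have n4 : m4 ≠ 0 := fun h0 => by
        have := k4 (a (2,0)) h0 (by simp); omega
      omega
    have q21 : 1 ≤ a (2,1) → 2 ≤ m0 + m1 + m2 + m3 + m4 := by
      intro h
      have n0 : m0 ≠ 0 := fun h0 => by
        have := k0 (a (2,1)) h0 (by simp); omega
      have n4 : m4 ≠ 0 := fun h0 => by
        have := k4 (a (2,1)) h0 (by simp); omega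
      omega
    have q22 : 1 ≤ a (2,2) → 2 ≤ m0 + m1 + m2 + m3 + m4 := by
      intro h
      have n0 : m0 ≠ 0 := fun h0 => by
        have := k0 (a (2,2)) h0 (by simp); omega
      have n1 : m1 ≠ 0 := fun h0 => by
        have := k1 (a (2,2)) h0 (by simp); omega
      omega
    have q23 : 1 ≤ a (2,3) → 2 ≤ m0 + m1 + m2 + m3 + m4 := by
      intro h
      have n1 : m1 ≠ 0 := fun h0 => by
        have := k1 (a (2,3)) h0 (by simp); omega
      have n2 : m2 ≠ 0 := fun h0 => by
        have := k2 (a (2,3)) h0 (by simp); omega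
      omega
    have q24 : 1 ≤ a (2,4) → 2 ≤ m0 + m1 + m2 + m3 + m4 := by
      intro h
      have n2 : m2 ≠ 0 := fun h0 => by
        have := k2 (a (2,4)) h0 (by simp); omega
      have n3 : m3 ≠ 0 := fun h0 => by
        have := k3 (a (2,4)) h0 (by simp); omega
      omega
    clear k0 k1 k2 k3 k4
    rintro ⟨t, i⟩ hf
    fin_cases t <;> fin_cases i
    · exact q00 hf
    · exact q01 hf
    · exact q02 hf
    · exact q03 hf
    · exact q04 hf
    · exact q10 hf
    · exact q11 hf
    · exact q12 hf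
    · exact q13 hf
    · exact q14 hf
    · exact q20 hf
    · exact q21 hf
    · exact q22 hf
    · exact q23 hf
    · exact q24 hf

/-! ### Subdivisions -/

section Subdiv

variable {V E : Type} [Fintype V] [Fintype E] [DecidableEq V] [DecidableEq E] {G : MGraph V E}
  (S : PetersenSubdivision G)

lemma x_eq_b {f : PE} {i : ℕ} {v : PV} (hi : i ≤ S.n f) :
    S.x f i = S.b v ↔ (i = 0 ∧ src f = v) ∨ (i = S.n f ∧ tgt f = v) := by
  constructor
  · intro h
    rcases Nat.eq_zero_or_pos i with h0 | h0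
    · left
      refine ⟨h0, ?_⟩
      rw [h0, S.x_zero] at h
      exact S.b_inj h
    · rcases Nat.lt_or_eq_of_le hi with h1 | h1
      · exact absurd h (S.inner_branch f i v h0 h1)
      · right
        refine ⟨h1, ?_⟩
        rw [h1, S.x_last] at h
        exact S.b_inj h
  · rintro (⟨h1, h2⟩ | ⟨h1, h2⟩)
    · rw [h1, S.x_zero, h2]
    · rw [h1, S.x_last, h2]

lemma x_inner_eq {f f' : PE} {i j : ℕ} (h0 : 0 < i) (hi : i < S.n f) (hj : j ≤ S.n f')
    (h : S.x f' j = S.x f i) : f' = f ∧ j = i := by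
  rcases Nat.eq_zero_or_pos j with j0 | j0
  · rw [j0, S.x_zero] at h
    exact absurd h.symm (S.inner_branch f i _ h0 hi)
  · rcases Nat.lt_or_eq_of_le hj with j1 | j1
    · exact S.inner_inj f' f j i j0 j1 h0 hi h
    · rw [j1, S.x_last] at h
      exact absurd h.symm (S.inner_branch f i _ h0 hi)

lemma y_inj {f f' : PE} {i j : ℕ} (hi : i < S.n f) (hj : j < S.n f')
    (h : S.y f i = S.y f' j) : f = f' ∧ i = j := by
  have he : s(S.x f i, S.x f (i + 1)) = s(S.x f' j, S.x f' (j + 1)) := by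
    rw [← S.link f i hi, ← S.link f' j hj, h]
  rw [Sym2.eq_iff] at he
  rcases he with ⟨h1, h2⟩ | ⟨h1, h2⟩
  · rcases Nat.eq_zero_or_pos i with i0 | i0
    · rcases Nat.lt_or_ge (i + 1) (S.n f) with i1 | i1
      · obtain ⟨e1, e2⟩ := x_inner_eq S (Nat.succ_pos i) i1 (Nat.succ_le_of_lt hj) h2.symm
        exact ⟨e1.symm, by omega⟩
      · have hn : S.n f = i + 1 := by omega
        have h3 : S.x f' j = S.b (src f) := by rw [← h1, i0, S.x_zero]
        have h4 : S.x f' (j + 1) = S.b (tgt f) := by rw [← h2, ← hn, S.x_last]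
        rw [x_eq_b S hj.le] at h3
        rw [x_eq_b S (Nat.succ_le_of_lt hj)] at h4
        rcases h3 with ⟨j0, h3⟩ | ⟨j1, _⟩
        · rcases h4 with ⟨j1, _⟩ | ⟨j1, h4⟩
          · omega
          · refine ⟨simple_pet _ _ ?_, by omega⟩
            rw [h3, h4]
        · omega
    · obtain ⟨e1, e2⟩ := x_inner_eq S i0 hi hj.le h1.symm
      exact ⟨e1.symm, e2.symm⟩
  · exfalso
    rcases Nat.eq_zero_or_pos i with i0 | i0
    · rcases Nat.lt_or_ge (i + 1) (S.n f) with i1 | i1
      · obtain ⟨e1, e2⟩ := x_inner_eq S (Nat.succ_pos i) i1 hj.le h2.symm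
        subst e1
        have h3 : S.x f' (j + 1) = S.b (src f') := by rw [← h1, i0, S.x_zero]
        rw [x_eq_b S (Nat.succ_le_of_lt hj)] at h3
        rcases h3 with ⟨j1, _⟩ | ⟨_, h3⟩
        · omega
        · exact src_ne_tgt f' h3.symm
      · have hn : S.n f = i + 1 := by omega
        have h3 : S.x f' (j + 1) = S.b (src f) := by rw [← h1, i0, S.x_zero]
        have h4 : S.x f' j = S.b (tgt f) := by rw [← h2, ← hn, S.x_last]
        rw [x_eq_b S (Nat.succ_le_of_lt hj)] at h3
        rw [x_eq_b S hj.le] at h4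
        rcases h3 with ⟨j1, _⟩ | ⟨_, h3⟩
        · omega
        · rcases h4 with ⟨_, h4⟩ | ⟨j1, _⟩
          · have : f = f' := by
              apply simple_pet
              rw [← h3, ← h4]
              exact Sym2.eq_swap
            subst this
            exact src_ne_tgt f h4
          · omega
    · obtain ⟨e1, e2⟩ := x_inner_eq S i0 hi (Nat.succ_le_of_lt hj) h1.symm
      subst e1
      rcases Nat.lt_or_ge (i + 1) (S.n f') with i1 | i1
      · obtain ⟨_, e3⟩ := x_inner_eq S (Nat.succ_pos i) i1 hj.le h2.symm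
        omega
      · have hn : S.n f' = i + 1 := by omega
        have h4 : S.x f' j = S.b (tgt f') := by rw [← h2, ← hn, S.x_last]
        rw [x_eq_b S hj.le] at h4
        rcases h4 with ⟨_, h4⟩ | ⟨j1, _⟩
        · exact src_ne_tgt f' h4
        · omega

lemma mult_y {f : PE} {i : ℕ} (hi : i < S.n f) (z : V) :
    G.mult (S.y f i) z = (if S.x f i = z then 1 else 0) + (if S.x f (i + 1) = z then 1 else 0) := by
  unfold MGraph.mult
  rw [S.link f i hi]
  by_cases h1 : S.x f i = z
  · by_cases h2 : S.x f (i + 1) = z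
    · simp [h1, h2]
    · have h3 : ¬ (s(S.x f i, S.x f (i + 1)) = s(z, z)) := by
        rw [Sym2.eq_iff]; tauto
      have h4 : z ∈ s(S.x f i, S.x f (i + 1)) := by rw [Sym2.mem_iff]; exact Or.inl h1.symm
      rw [if_neg h3, if_pos h4, if_pos h1, if_neg h2]
  · by_cases h2 : S.x f (i + 1) = z
    · have h3 : ¬ (s(S.x f i, S.x f (i + 1)) = s(z, z)) := by
        rw [Sym2.eq_iff]; tauto
      have h4 : z ∈ s(S.x f i, S.x f (i + 1)) := by rw [Sym2.mem_iff]; exact Or.inr h2.symm
      rw [if_neg h3, if_pos h4, if_neg h1, if_pos h2]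
    · have h3 : ¬ (s(S.x f i, S.x f (i + 1)) = s(z, z)) := by
        rw [Sym2.eq_iff]; tauto
      have h4 : ¬ (z ∈ s(S.x f i, S.x f (i + 1))) := by
        rw [Sym2.mem_iff]; intro h; rcases h with h | h
        · exact h1 h.symm
        · exact h2 h.symm
      rw [if_neg h3, if_neg h4, if_neg h1, if_neg h2]

/-- index set of the edges of the subdivision -/
def idx : Finset (Σ _ : PE, ℕ) := Finset.univ.sigma (fun f => Finset.range (S.n f))

lemma mem_idx {p : Σ _ : PE, ℕ} : p ∈ idx S ↔ p.2 < S.n p.1 := by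
  simp [idx]

/-- The weight on `G`. -/
def wt (k : ℕ) (e : E) : ℕ := ∑ p ∈ idx S, if S.y p.1 p.2 = e then k * w10 p.1 else 0

lemma wt_y (k : ℕ) {f : PE} {i : ℕ} (hi : i < S.n f) : wt S k (S.y f i) = k * w10 f := by
  unfold wt
  rw [Finset.sum_eq_single (⟨f, i⟩ : Σ _ : PE, ℕ)]
  · simp
  · rintro ⟨f', j⟩ hp hne
    rw [mem_idx] at hp
    rw [if_neg]
    intro h
    obtain ⟨e1, e2⟩ := y_inj S hp hi h
    simp only at e1 e2
    subst e1
    subst e2
    exact hne rfl
  · intro h
    exact absurd ((mem_idx S).2 hi) h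

lemma wt_ne_zero (k : ℕ) {e : E} (h : wt S k e ≠ 0) : ∃ f i, i < S.n f ∧ S.y f i = e := by
  by_contra hcon
  push Not at hcon
  apply h
  unfold wt
  apply Finset.sum_eq_zero
  rintro ⟨f, i⟩ hp
  rw [mem_idx] at hp
  rw [if_neg (hcon f i hp)]

/-- number of edges of the path `f` in `T` -/
def cnt (T : Finset E) (f : PE) : ℕ := ∑ i ∈ Finset.range (S.n f), if S.y f i ∈ T then 1 else 0

lemma sum_wt (k : ℕ) (T : Finset E) : ∑ e ∈ T, wt S k e = k * ∑ f, w10 f * cnt S T f := by
  unfold wt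
  rw [Finset.sum_comm]
  have h1 : ∀ p ∈ idx S, (∑ e ∈ T, if S.y p.1 p.2 = e then k * w10 p.1 else 0) =
      if S.y p.1 p.2 ∈ T then k * w10 p.1 else 0 := by
    intro p _
    rw [Finset.sum_ite_eq]
  rw [Finset.sum_congr rfl h1]
  unfold idx
  rw [Finset.sum_sigma, Finset.mul_sum]
  apply Finset.sum_congr rfl
  intro f _
  unfold cnt
  rw [← mul_assoc, Finset.mul_sum]
  apply Finset.sum_congr rfl
  intro i _
  simp only
  split_ifs <;> simp

lemma mem_cut_y {f : PE} {i : ℕ} (hi : i < S.n f) (X : Finset V) :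
    S.y f i ∈ G.cut X ↔ ((S.x f i ∈ X ∧ S.x f (i + 1) ∉ X) ∨ (S.x f i ∉ X ∧ S.x f (i + 1) ∈ X)) := by
  unfold MGraph.cut
  rw [Finset.mem_filter, S.link f i hi]
  constructor
  · rintro ⟨-, ⟨v, hv, hvX⟩, ⟨u, hu, huX⟩⟩
    rw [Sym2.mem_iff] at hv hu
    rcases hv with rfl | rfl <;> rcases hu with rfl | rfl <;> tauto
  · rintro (⟨h1, h2⟩ | ⟨h1, h2⟩)
    · exact ⟨Finset.mem_univ _, ⟨_, Sym2.mem_mk_left _ _, h1⟩, ⟨_, Sym2.mem_mk_right _ _, h2⟩⟩
    · exact ⟨Finset.mem_univ _, ⟨_, Sym2.mem_mk_right _ _, h2⟩, ⟨_, Sym2.mem_mk_left _ _, h1⟩⟩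

lemma cnt_parity (X : Finset V) (f : PE) :
    ∀ m, m ≤ S.n f → (∑ i ∈ Finset.range m, if S.y f i ∈ G.cut X then 1 else 0) % 2 =
      ((if S.x f 0 ∈ X then 1 else 0) + (if S.x f m ∈ X then 1 else 0)) % 2 := by
  intro m
  induction m with
  | zero => intro _; simp; split_ifs <;> rfl
  | succ m ih =>
    intro hm
    rw [Finset.sum_range_succ, Nat.add_mod, ih (by omega)]
    have hmem := mem_cut_y S (f := f) (i := m) (by omega) X
    by_cases h1 : S.x f m ∈ X
    · by_cases h2 : S.x f (m + 1) ∈ X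
      · have h3 : S.y f m ∉ G.cut X := by rw [hmem]; tauto
        simp only [h1, h2, h3, if_true, if_false]; omega
      · have h3 : S.y f m ∈ G.cut X := by rw [hmem]; tauto
        simp only [h1, h2, h3, if_true, if_false]; omega
    · by_cases h2 : S.x f (m + 1) ∈ X
      · have h3 : S.y f m ∈ G.cut X := by rw [hmem]; tauto
        simp only [h1, h2, h3, if_true, if_false]; omega
      · have h3 : S.y f m ∉ G.cut X := by rw [hmem]; tauto
        simp only [h1, h2, h3, if_false]; omega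

lemma cnt_facts (X : Finset V) :
    Even (∑ f, w10 f * cnt S (G.cut X) f) ∧
      ∀ f, 1 ≤ cnt S (G.cut X) f → 2 * w10 f ≤ ∑ g, w10 g * cnt S (G.cut X) g := by
  apply cut_count _ (fun v => if S.b v ∈ X then 1 else 0)
  intro f
  have := cnt_parity S X f (S.n f) le_rfl
  rw [S.x_zero, S.x_last] at this
  exact this

lemma wt_eulerian (k : ℕ) : G.Eulerian (wt S k) := by
  intro X _ _
  rw [sum_wt]
  exact (cnt_facts S X).1.mul_left k

lemma wt_admissible (k : ℕ) : G.Admissible (wt S k) := by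
  intro X _ _ e he
  by_cases h0 : wt S k e = 0
  · rw [h0]; exact Nat.zero_le _
  obtain ⟨f, i, hi, rfl⟩ := wt_ne_zero S k h0
  have h1 := Finset.add_sum_erase (G.cut X) (wt S k) he
  have h2 : 1 ≤ cnt S (G.cut X) f := by
    unfold cnt
    calc 1 = (if S.y f i ∈ G.cut X then 1 else 0) := by rw [if_pos he]
      _ ≤ _ := Finset.single_le_sum (f := fun i => if S.y f i ∈ G.cut X then 1 else 0)
          (fun _ _ => Nat.zero_le _) (Finset.mem_range.2 hi)
  have h3 := (cnt_facts S X).2 f h2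
  have h4 := wt_y S k hi
  have h5 : k * (2 * w10 f) ≤ k * ∑ g, w10 g * cnt S (G.cut X) g := Nat.mul_le_mul_left k h3
  rw [← sum_wt, ← h1, h4] at h5
  rw [h4]
  linarith

lemma wt_dvd (k : ℕ) (e : E) : k ∣ wt S k e := by
  unfold wt
  apply Finset.dvd_sum
  intro p _
  split_ifs
  · exact dvd_mul_right _ _
  · exact dvd_zero _

/-- If `C` only uses edges of the subdivision, sums over `C` can be computed path by path. -/
lemma sum_sub {C : Finset E} (hC : ∀ e ∈ C, ∃ f i, i < S.n f ∧ S.y f i = e) (g : E → ℕ) :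
    ∑ e ∈ C, g e = ∑ f, ∑ i ∈ Finset.range (S.n f), if S.y f i ∈ C then g (S.y f i) else 0 := by
  have h1 : C = ((idx S).filter (fun p => S.y p.1 p.2 ∈ C)).image (fun p => S.y p.1 p.2) := by
    ext e
    simp only [Finset.mem_image, Finset.mem_filter]
    constructor
    · intro he
      obtain ⟨f, i, hi, rfl⟩ := hC e he
      exact ⟨⟨f, i⟩, ⟨(mem_idx S).2 hi, he⟩, rfl⟩
    · rintro ⟨p, ⟨_, hp⟩, rfl⟩
      exact hp
  conv_lhs => rw [h1]
  rw [Finset.sum_image, Finset.sum_filter]
  · unfold idx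
    rw [Finset.sum_sigma]
  · rintro ⟨f, i⟩ hp ⟨f', j⟩ hq h
    simp only [Finset.coe_filter, Set.mem_ofPred_eq] at hp hq
    obtain ⟨e1, e2⟩ := y_inj S ((mem_idx S).1 hp.1) ((mem_idx S).1 hq.1) h
    simp only at e1 e2
    subst e1
    subst e2
    rfl

lemma deg_inner {C : Finset E} (hC : ∀ e ∈ C, ∃ f i, i < S.n f ∧ S.y f i = e) {f : PE} {i : ℕ}
    (hi : i + 1 < S.n f) :
    G.deg C (S.x f (i + 1)) = (if S.y f i ∈ C then 1 else 0) + (if S.y f (i + 1) ∈ C then 1 else 0) := by
  unfold MGraph.deg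
  rw [sum_sub S hC]
  have h1 : ∀ f', (∑ j ∈ Finset.range (S.n f'), if S.y f' j ∈ C then
      G.mult (S.y f' j) (S.x f (i + 1)) else 0) =
      (∑ j ∈ Finset.range (S.n f'), if (f' = f ∧ j = i) then (if S.y f i ∈ C then 1 else 0) else 0) +
      (∑ j ∈ Finset.range (S.n f'), if (f' = f ∧ j = i + 1) then (if S.y f (i + 1) ∈ C then 1 else 0) else 0) := by
    intro f'
    rw [← Finset.sum_add_distrib]
    apply Finset.sum_congr rfl
    intro j hj
    rw [Finset.mem_range] at hj
    rw [mult_y S hj]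
    have e1 : S.x f' j = S.x f (i + 1) ↔ f' = f ∧ j = i + 1 := by
      constructor
      · intro h; exact x_inner_eq S (Nat.succ_pos i) hi hj.le h
      · rintro ⟨rfl, rfl⟩; rfl
    have e2 : S.x f' (j + 1) = S.x f (i + 1) ↔ f' = f ∧ j = i := by
      constructor
      · intro h
        have := x_inner_eq S (Nat.succ_pos i) hi (Nat.succ_le_of_lt hj) h
        exact ⟨this.1, by omega⟩
      · rintro ⟨rfl, rfl⟩; rfl
    by_cases a1 : f' = f ∧ j = i + 1
    · have a2 : ¬ (f' = f ∧ j = i) := by rintro ⟨_, h⟩; omega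
      rw [if_pos (e1.2 a1), if_neg (fun h => a2 (e2.1 h)), if_neg a2, if_pos a1]
      obtain ⟨rfl, rfl⟩ := a1
      simp
    · by_cases a2 : f' = f ∧ j = i
      · rw [if_neg (fun h => a1 (e1.1 h)), if_pos (e2.2 a2), if_pos a2, if_neg a1]
        obtain ⟨rfl, rfl⟩ := a2
        simp
      · rw [if_neg (fun h => a1 (e1.1 h)), if_neg (fun h => a2 (e2.1 h)), if_neg a2, if_neg a1]
        simp
  have hA : (∑ f', ∑ j ∈ Finset.range (S.n f'), if (f' = f ∧ j = i) then
      (if S.y f i ∈ C then 1 else 0) else 0) = (if S.y f i ∈ C then 1 else 0) := by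
    rw [Finset.sum_eq_single f]
    · rw [Finset.sum_eq_single i]
      · rw [if_pos ⟨rfl, rfl⟩]
      · intro j _ hj; rw [if_neg (fun h => hj h.2)]
      · intro h; exact absurd (Finset.mem_range.2 (by omega)) h
    · intro f' _ hf'
      apply Finset.sum_eq_zero
      intro j _
      rw [if_neg (fun h => hf' h.1)]
    · intro h; exact absurd (Finset.mem_univ _) h
  have hB : (∑ f', ∑ j ∈ Finset.range (S.n f'), if (f' = f ∧ j = i + 1) then
      (if S.y f (i + 1) ∈ C then 1 else 0) else 0) = (if S.y f (i + 1) ∈ C then 1 else 0) := by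
    rw [Finset.sum_eq_single f]
    · rw [Finset.sum_eq_single (i + 1)]
      · rw [if_pos ⟨rfl, rfl⟩]
      · intro j _ hj; rw [if_neg (fun h => hj h.2)]
      · intro h; exact absurd (Finset.mem_range.2 (by omega)) h
    · intro f' _ hf'
      apply Finset.sum_eq_zero
      intro j _
      rw [if_neg (fun h => hf' h.1)]
    · intro h; exact absurd (Finset.mem_univ _) h
  rw [Finset.sum_congr rfl (fun f' _ => h1 f'), Finset.sum_add_distrib, hA, hB]

lemma path_const {C : Finset E} (hC : ∀ e ∈ C, ∃ f i, i < S.n f ∧ S.y f i = e)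
    (hdeg : ∀ v, G.deg C v = 0 ∨ G.deg C v = 2) {f : PE} {i : ℕ} (hi : i < S.n f) :
    S.y f i ∈ C ↔ S.y f 0 ∈ C := by
  induction i with
  | zero => rfl
  | succ i ih =>
    rw [← ih (by omega)]
    have h1 := deg_inner S hC hi
    have h2 := hdeg (S.x f (i + 1))
    rw [h1] at h2
    by_cases a : S.y f i ∈ C <;> by_cases b : S.y f (i + 1) ∈ C <;> simp [a, b] at h2 ⊢

lemma deg_branch {C : Finset E} (hC : ∀ e ∈ C, ∃ f i, i < S.n f ∧ S.y f i = e)
    (hdeg : ∀ v, G.deg C v = 0 ∨ G.deg C v = 2) (v : PV) :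
    G.deg C (S.b v) = ∑ f, (if S.y f 0 ∈ C then 1 else 0) *
      ((if src f = v then 1 else 0) + (if tgt f = v then 1 else 0)) := by
  unfold MGraph.deg
  rw [sum_sub S hC]
  apply Finset.sum_congr rfl
  intro f _
  have hn := S.n_pos f
  have h1 : (∑ j ∈ Finset.range (S.n f), if S.y f j ∈ C then G.mult (S.y f j) (S.b v) else 0) =
      (∑ j ∈ Finset.range (S.n f), if j = 0 then
        ((if S.y f 0 ∈ C then 1 else 0) * (if src f = v then 1 else 0)) else 0) +
      (∑ j ∈ Finset.range (S.n f), if j = S.n f - 1 then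
        ((if S.y f 0 ∈ C then 1 else 0) * (if tgt f = v then 1 else 0)) else 0) := by
    rw [← Finset.sum_add_distrib]
    apply Finset.sum_congr rfl
    intro j hj
    rw [Finset.mem_range] at hj
    rw [mult_y S hj]
    have e0 := path_const S hC hdeg hj
    have e1 := x_eq_b S (v := v) hj.le
    have e2 := x_eq_b S (v := v) (Nat.succ_le_of_lt hj)
    have e1' : S.x f j = S.b v ↔ (j = 0 ∧ src f = v) := by
      rw [e1]; constructor
      · rintro (h | h)
        · exact h
        · omega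
      · intro h; exact Or.inl h
    have e2' : S.x f (j + 1) = S.b v ↔ (j = S.n f - 1 ∧ tgt f = v) := by
      rw [e2]; constructor
      · rintro (h | h)
        · omega
        · exact ⟨by omega, h.2⟩
      · intro h; exact Or.inr ⟨by omega, h.2⟩
    simp only [e0, e1', e2']
    by_cases c1 : S.y f 0 ∈ C <;> by_cases c2 : j = 0 <;> by_cases c3 : j = S.n f - 1 <;>
      by_cases c4 : src f = v <;> by_cases c5 : tgt f = v <;>
      simp [c1, c2, c3, c4, c5]
  rw [h1, Finset.sum_ite_eq' (Finset.range (S.n f)) 0, Finset.sum_ite_eq' (Finset.range (S.n f)) (S.n f - 1),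
    if_pos (Finset.mem_range.2 (by omega)), if_pos (Finset.mem_range.2 (by omega))]
  ring

end Subdiv

lemma pet_deg_outer (c : PE → ℕ) (i : Fin 5) :
    ∑ f, c f * ((if src f = (false, i + 1) then 1 else 0) + (if tgt f = (false, i + 1) then 1 else 0)) =
      c (0, i) + c (0, i + 1) + c (1, i + 1) := by
  rw [sum_PE]
  fin_cases i <;> simp [src, tgt] <;> ring_nf

lemma pet_deg_inner (c : PE → ℕ) (i : Fin 5) :
    ∑ f, c f * ((if src f = (true, i + 2) then 1 else 0) + (if tgt f = (true, i + 2) then 1 else 0)) =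
      c (2, i) + c (2, i + 2) + c (1, i + 2) := by
  rw [sum_PE]
  fin_cases i <;> simp [src, tgt] <;> ring_nf

lemma multiset_eq_of_le {α : Type} (F : Multiset α) (p q : α → ℕ) (hle : ∀ C ∈ F, p C ≤ q C)
    (hsum : (F.map q).sum ≤ (F.map p).sum) : ∀ C ∈ F, p C = q C := by
  induction F using Multiset.induction_on with
  | empty => intro C hC; exact absurd hC (Multiset.notMem_zero C)
  | cons a F ih =>
    rw [Multiset.map_cons, Multiset.map_cons, Multiset.sum_cons, Multiset.sum_cons] at hsum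
    have h1 := hle a (Multiset.mem_cons_self a F)
    have h2 : (F.map p).sum ≤ (F.map q).sum :=
      Multiset.sum_map_le_sum_map p q (fun C hC => hle C (Multiset.mem_cons_of_mem hC))
    intro C hC
    rcases Multiset.mem_cons.1 hC with rfl | hC
    · omega
    · exact ih (fun C hC => hle C (Multiset.mem_cons_of_mem hC)) (by omega) C hC

lemma countP_eq_sum {α : Type} (F : Multiset α) (p : α → Prop) [DecidablePred p] :
    F.countP p = (F.map (fun C => if p C then 1 else 0)).sum := by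
  induction F using Multiset.induction_on with
  | empty => simp
  | cons a F ih =>
    rw [Multiset.countP_cons, Multiset.map_cons, Multiset.sum_cons, ih, add_comm]

/-- **Main theorem.** If `k` is odd and a multigraph has property `P_k`, then it contains no
subdivision of the Petersen graph. -/
theorem result {V E : Type} [Fintype V] [Fintype E] [DecidableEq V] [DecidableEq E]
    (G : MGraph V E) (k : ℕ) (hk : Odd k) (hP : G.PropP k) : IsEmpty (PetersenSubdivision G) := by
  refine ⟨fun S => ?_⟩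
  obtain ⟨F, hF, hcount⟩ := hP (wt S k) (wt_dvd S k) (wt_admissible S k) (wt_eulerian S k)
  have hsub : ∀ C ∈ F, ∀ e ∈ C, ∃ f i, i < S.n f ∧ S.y f i = e := by
    intro C hC e he
    apply wt_ne_zero S k
    rw [← hcount e]
    have : 0 < F.countP (fun C => e ∈ C) := Multiset.countP_pos.2 ⟨C, hC, he⟩
    omega
  set c : Finset E → PE → ℕ := fun C f => if S.y f 0 ∈ C then 1 else 0 with hc
  have hc1 : ∀ C f, c C f ≤ 1 := by
    intro C f; simp only [hc]; split_ifs <;> omega
  have hcsum : ∀ f, (F.map (fun C => c C f)).sum = k * w10 f := by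
    intro f
    have h1 := hcount (S.y f 0)
    rw [wt_y S k (S.n_pos f), countP_eq_sum] at h1
    exact h1
  have hout : ∀ C ∈ F, ∀ i : Fin 5, (c C (0, i) + c C (0, i + 1) + c C (1, i + 1) = 0 ∨
      c C (0, i) + c C (0, i + 1) + c C (1, i + 1) = 2) := by
    intro C hC i
    have h1 := deg_branch S (hsub C hC) (hF C hC).2.1 (false, i + 1)
    rw [pet_deg_outer] at h1
    have h2 := (hF C hC).2.1 (S.b (false, i + 1))
    rw [h1] at h2
    exact h2
  have hinn : ∀ C ∈ F, ∀ i : Fin 5, (c C (2, i) + c C (2, i + 2) + c C (1, i + 2) = 0 ∨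
      c C (2, i) + c C (2, i + 2) + c C (1, i + 2) = 2) := by
    intro C hC i
    have h1 := deg_branch S (hsub C hC) (hF C hC).2.1 (true, i + 2)
    rw [pet_deg_inner] at h1
    have h2 := (hF C hC).2.1 (S.b (true, i + 2))
    rw [h1] at h2
    exact h2
  have heq1 : ∀ i : Fin 5, ∀ C ∈ F, c C (1, i + 1) = c C (0, i) + c C (0, i + 1) := by
    intro i
    apply multiset_eq_of_le F (fun C => c C (1, i + 1)) (fun C => c C (0, i) + c C (0, i + 1))
    · intro C hC
      have := hout C hC i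
      have := hc1 C (1, i + 1)
      omega
    · rw [Multiset.sum_map_add, hcsum, hcsum, hcsum]
      simp only [w10]
      omega
  have heq2 : ∀ i : Fin 5, ∀ C ∈ F, c C (1, i + 2) = c C (2, i) + c C (2, i + 2) := by
    intro i
    apply multiset_eq_of_le F (fun C => c C (1, i + 2)) (fun C => c C (2, i) + c C (2, i + 2))
    · intro C hC
      have := hinn C hC i
      have := hc1 C (1, i + 2)
      omega
    · rw [Multiset.sum_map_add, hcsum, hcsum, hcsum]
      simp only [w10]
      omega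
  have hev : ∀ C ∈ F, Even (∑ i : Fin 5, c C (0, i)) := by
    intro C hC
    exact final_parity (fun i => c C (0, i)) (fun i => c C (1, i)) (fun i => c C (2, i))
      (fun i => hc1 C _) (fun i => hc1 C _) (fun i => hc1 C _)
      (fun i => heq1 i C hC) (fun i => heq2 i C hC)
  have htot : (F.map (fun C => ∑ i : Fin 5, c C (0, i))).sum = 5 * k := by
    simp only [Fin.sum_univ_five, Multiset.sum_map_add, hcsum, w10]
    ring
  have heven : Even (5 * k) := by
    rw [← htot, even_iff_two_dvd]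
    apply Multiset.dvd_sum
    intro a ha
    rw [Multiset.mem_map] at ha
    obtain ⟨C, hC, rfl⟩ := ha
    exact (hev C hC).two_dvd
  rw [Nat.even_mul] at heven
  rcases heven with h | h
  · exact absurd h (by decide)
  · exact (Nat.not_even_iff_odd.2 hk) h

end Pool.Agent.Results.MP_3c540c_co.OddPetersen
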