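import Mathlib
import Pool.Agent.FCCov.E

set_option autoImplicit false
set_option linter.unusedSectionVars false
set_option linter.unusedFintypeInType false
set_option linter.unusedVariables false

namespace Pool.Agent.Results.MP_3c540c_co.RichSets

/-- A multigraph with vertex type `V` and edge type `E`: each edge has an unordered pair of ends.
Parallel edges (and also loops) are allowed. -/
structure MGraph (V E : Type) where
  /-- the ends of an edge -/
  ends : E → Sym2 V

section Defs

variable {V E : Type} [Fintype V] [Fintype E] [DecidableEq V] [DecidableEq E]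

/-- Number of times the edge `e` is attached to the vertex `v` (a loop counts twice). -/
def MGraph.mult (G : MGraph V E) (e : E) (v : V) : ℕ :=
  if G.ends e = s(v, v) then 2 else if v ∈ G.ends e then 1 else 0

/-- Degree of `v` in the subgraph formed by the edge set `C`. -/
def MGraph.deg (G : MGraph V E) (C : Finset E) (v : V) : ℕ := ∑ e ∈ C, G.mult e v

/-- `C` is the edge set of a circuit: nonempty, every vertex has degree 0 or 2 in `C`, and any
two edges of `C` are joined by a chain of edges of `C` in which consecutive edges share a vertex. -/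
def MGraph.IsCircuit (G : MGraph V E) (C : Finset E) : Prop :=
  C.Nonempty ∧ (∀ v, G.deg C v = 0 ∨ G.deg C v = 2) ∧
    ∀ e ∈ C, ∀ f ∈ C,
      Relation.ReflTransGen (fun a b => a ∈ C ∧ b ∈ C ∧ ∃ v, v ∈ G.ends a ∧ v ∈ G.ends b) e f

/-- The edge-cut `δ(X)`: the edges with exactly one end in `X`. -/
def MGraph.cut (G : MGraph V E) (X : Finset V) : Finset E :=
  Finset.univ.filter (fun e => (∃ v, v ∈ G.ends e ∧ v ∈ X) ∧ (∃ v, v ∈ G.ends e ∧ v ∉ X))

/-- Eulerian weights. -/
def MGraph.Eulerian (G : MGraph V E) (w : E → ℕ) : Prop :=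
  ∀ X : Finset V, X.Nonempty → X ≠ Finset.univ → Even (∑ f ∈ G.cut X, w f)

/-- `(G, w)` has a faithful circuit cover. -/
def MGraph.HasFaithfulCover (G : MGraph V E) (w : E → ℕ) : Prop :=
  ∃ F : Multiset (Finset E), (∀ C ∈ F, G.IsCircuit C) ∧ ∀ e, F.countP (fun C => e ∈ C) = w e

/-- The edges with both ends in `U` whose ends are in different classes of the partition given by
`c`. -/
def MGraph.crossing (G : MGraph V E) (U : Finset V) (c : V → V) : Finset E :=
  Finset.univ.filter (fun f => (∀ v ∈ G.ends f, v ∈ U) ∧
    ∃ x ∈ G.ends f, ∃ y ∈ G.ends f, c x ≠ c y)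

/-- `U` is `n`-rich: whenever a partition of the vertices (given by `c`) separates the ends of no
edge `f` with `w f ≥ 2` and `N f > n`, and `U` meets `p` classes, the edges inside `U` which join
different classes have total capacity `min (w f) (n - w f)` at least `(n - 1) (p - 1)`. -/
def MGraph.Rich (G : MGraph V E) (w N : E → ℕ) (U : Finset V) (n : ℕ) : Prop :=
  ∀ c : V → V, (∀ f, 2 ≤ w f → n < N f → ∀ x ∈ G.ends f, ∀ y ∈ G.ends f, c x = c y) →
    (n - 1) * ((U.image c).card - 1) ≤ ∑ f ∈ G.crossing U c, min (w f) (n - w f)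

end Defs

/-- Let `w` be an eulerian weight and `N e ≥ w e` an odd number for every edge. If the ends of every
edge `e` of weight at least two lie in an `N e`-rich vertex set, then `(G, w)` has a faithful
circuit cover. -/
theorem result (V E : Type) [Fintype V] [Fintype E] [DecidableEq V] [DecidableEq E]
    (G : MGraph V E) (w N : E → ℕ) (hN : ∀ e, Odd (N e)) (hE : G.Eulerian w)
    (hw : ∀ e, w e ≤ N e)
    (hU : ∀ e, 2 ≤ w e → ∃ U : Finset V, (∀ v ∈ G.ends e, v ∈ U) ∧ G.Rich w N U (N e)) :
    G.HasFaithfulCover w :=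
  Pool.Agent.FCCov.rich_sets ⟨G.ends⟩ w N hN hE hw hU

end Pool.Agent.Results.MP_3c540c_co.RichSets
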